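import Pool.Agent.helper5.IH.Spec

set_option autoImplicit false

namespace Pool.Agent.IH
open Finset CT SYM

/-- FORM: the formula. -/
theorem FORM (hN1W : N1W_stmt) (hN1H : N1H_stmt) (hHC2 : HC2_stmt) : FORM_stmt := by
  intro V _ _ G m q v hreg hcard hEW
  obtain ⟨h4, hC⟩ := hN1W V G m q v hreg hcard hEW
  obtain ⟨k, hk, hn⟩ := hC
  have h8 := hN1H V (IG m q) (by omega)
  have h2 := hHC2 V (IG m q) (by omega)
  rw [h2] at h8
  refine ⟨k, hk, hn.trans ?_⟩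
  rw [Nat.card_zmod]
  obtain ⟨c, hc⟩ := h4
  obtain ⟨d, hd⟩ := h8
  rw [hc] at hd ⊢
  rw [Nat.mul_div_cancel_left c (by norm_num)]
  unfold Int.ModEq
  omega

end Pool.Agent.IH
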