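import Pool.Agent.helper5.IH.Spec

set_option autoImplicit false

namespace Pool.Agent.IH
open Finset CT SYM

section LBWsec
variable {V : Type}

theorem LBW_sum [Fintype V] [DecidableEq V] {m : ℕ} {q : ℕ → V} {a b : V → ℕ}
    (hP : Pos m q a b) (f : ℕ → ZMod 2) :
    ∑ j ∈ range m, f j = ∑ w, (f (a w) + f (b w)) := by
  have hr : range m = (univ.image a) ∪ (univ.image b) := by
    ext j
    simp only [mem_range, mem_union, mem_image, mem_univ, true_and]
    constructor
    · intro hj
      rcases hP.uni j hj with h | h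
      · exact Or.inl ⟨q j, h.symm⟩
      · exact Or.inr ⟨q j, h.symm⟩
    · rintro (⟨v, rfl⟩ | ⟨v, rfl⟩)
      · exact (hP.lt v).1.trans (hP.lt v).2
      · exact (hP.lt v).2
  have hd : Disjoint (univ.image a) (univ.image b) := by
    rw [Finset.disjoint_left]
    intro j hj hj'
    simp only [mem_image, mem_univ, true_and] at hj hj'
    obtain ⟨v, hv⟩ := hj
    obtain ⟨w, hw⟩ := hj'
    have h1 := (hP.val v).1
    have h2 := (hP.val w).2
    rw [hv] at h1
    rw [hw] at h2
    have h3 : v = w := h1.symm.trans h2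
    subst h3
    have h4 := (hP.lt v).1
    omega
  have ha : Function.Injective a := fun v w h => by
    have h1 := (hP.val v).1
    rw [h, (hP.val w).1] at h1
    exact h1.symm
  have hb : Function.Injective b := fun v w h => by
    have h1 := (hP.val v).2
    rw [h, (hP.val w).2] at h1
    exact h1.symm
  rw [hr, Finset.sum_union hd, Finset.sum_image (fun x _ y _ h => ha h),
    Finset.sum_image (fun x _ y _ h => hb h), ← Finset.sum_add_distrib]

theorem LBW_adj {m : ℕ} {q : ℕ → V} {a b : V → ℕ}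
    (hP : Pos m q a b) (v w : V) :
    (IG m q).Adj v w ↔ v ≠ w ∧ ((a v < a w ∧ a w < b v ∧ b v < b w) ∨
      (a w < a v ∧ a v < b w ∧ b w < b v)) := by
  have key : ∀ v w : V, (∃ i j k l, i < j ∧ j < k ∧ k < l ∧ l < m ∧
      q i = v ∧ q j = w ∧ q k = v ∧ q l = w) ↔ (a v < a w ∧ a w < b v ∧ b v < b w) := by
    intro v w
    constructor
    · rintro ⟨i, j, k, l, hij, hjk, hkl, hl, hi1, hj1, hk1, hl1⟩
      have e1 := hP.uni i (by omega)
      have e2 := hP.uni j (by omega)
      have e3 := hP.uni k (by omega)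
      have e4 := hP.uni l (by omega)
      rw [hi1] at e1
      rw [hj1] at e2
      rw [hk1] at e3
      rw [hl1] at e4
      have l1 := (hP.lt v).1
      have l2 := (hP.lt w).1
      omega
    · rintro ⟨h1, h2, h3⟩
      exact ⟨a v, a w, b v, b w, h1, h2, h3, (hP.lt w).2, (hP.val v).1, (hP.val w).1,
        (hP.val v).2, (hP.val w).2⟩
  unfold IG
  rw [SimpleGraph.fromRel_adj, key, key]

open Classical in
theorem LBW_key [Fintype V] [DecidableEq V] {m : ℕ} {q : ℕ → V} {a b : V → ℕ}
    (hP : Pos m q a b) (z : V → ZMod 2) (v : V) :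
    ∑ j ∈ range (b v), z (q j) + ∑ j ∈ range (a v), z (q j) =
      z v + ∑ w, if (IG m q).Adj v w then z w else 0 := by
  have h2 : ∀ x : ZMod 2, x + x = 0 := by decide
  have hlt := hP.lt v
  have e1 : ∑ j ∈ range (b v), z (q j) = ∑ j ∈ range m, if j < b v then z (q j) else 0 := by
    rw [← Finset.sum_filter]
    apply Finset.sum_congr _ (fun _ _ => rfl)
    ext j
    simp only [mem_range, mem_filter]
    omega
  have e2 : ∑ j ∈ range (a v), z (q j) = ∑ j ∈ range m, if j < a v then z (q j) else 0 := by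
    rw [← Finset.sum_filter]
    apply Finset.sum_congr _ (fun _ _ => rfl)
    ext j
    simp only [mem_range, mem_filter]
    omega
  have e3 : z v = ∑ w, if w = v then z w else 0 := by
    rw [Finset.sum_ite_eq' univ v z, if_pos (mem_univ _)]
  rw [e1, e2, ← Finset.sum_add_distrib, LBW_sum hP, e3, ← Finset.sum_add_distrib]
  apply Finset.sum_congr rfl
  intro w _
  rw [(hP.val w).1, (hP.val w).2]
  have hw := hP.lt w
  have hadj := LBW_adj hP v w
  by_cases hwv : w = v
  · subst hwv
    have hn : ¬ (IG m q).Adj w w := SimpleGraph.irrefl _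
    rw [if_neg hn, if_pos rfl, if_pos hlt.1, if_neg (lt_irrefl _), if_neg (lt_irrefl _),
      if_neg (not_lt.2 hlt.1.le)]
    simp
  · have d1 : a w ≠ a v := fun h => by
      have := (hP.val w).1
      rw [h, (hP.val v).1] at this
      exact hwv this.symm
    have d2 : a w ≠ b v := fun h => by
      have := (hP.val w).1
      rw [h, (hP.val v).2] at this
      exact hwv this.symm
    have d3 : b w ≠ a v := fun h => by
      have := (hP.val w).2
      rw [h, (hP.val v).1] at this
      exact hwv this.symm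
    have d4 : b w ≠ b v := fun h => by
      have := (hP.val w).2
      rw [h, (hP.val v).2] at this
      exact hwv this.symm
    rw [if_neg hwv, zero_add]
    have hne : v ≠ w := fun h => hwv h.symm
    by_cases c1 : a w < a v <;> by_cases c2 : a w < b v <;> by_cases c3 : b w < a v <;>
      by_cases c4 : b w < b v <;> first | omega | skip
    all_goals
      first
        | rw [if_pos (hadj.2 ⟨hne, by omega⟩)]
        | rw [if_neg (fun h => absurd (hadj.1 h).2 (by omega))]
      simp only [c1, c2, c3, c4, if_true, if_false]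
      simp [h2]

theorem LBW_ina {m : ℕ} {q : ℕ → V} {a b : V → ℕ} (hP : Pos m q a b) (v : V) :
    inD m q a (a v) = (v, 0) := by
  have h1 := hP.lt v
  unfold inD
  rw [(hP.val v).1, Nat.mod_eq_of_lt (h1.1.trans h1.2), if_pos rfl]

theorem LBW_outa {m : ℕ} {q : ℕ → V} {a b : V → ℕ} (hP : Pos m q a b) (v : V) :
    outD m q a (a v) = (v, 1) := by
  have h1 := hP.lt v
  unfold outD
  rw [(hP.val v).1, Nat.mod_eq_of_lt (h1.1.trans h1.2), if_pos rfl]

theorem LBW_inb {m : ℕ} {q : ℕ → V} {a b : V → ℕ} (hP : Pos m q a b) (v : V) :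
    inD m q a (b v) = (v, 3) := by
  have h1 := hP.lt v
  unfold inD
  rw [(hP.val v).2, Nat.mod_eq_of_lt h1.2, if_neg (ne_of_gt h1.1)]

theorem LBW_outb {m : ℕ} {q : ℕ → V} {a b : V → ℕ} (hP : Pos m q a b) (v : V) :
    outD m q a (b v) = (v, 2) := by
  have h1 := hP.lt v
  unfold outD
  rw [(hP.val v).2, Nat.mod_eq_of_lt h1.2, if_neg (ne_of_gt h1.1)]

/-- The label function of the position labels `h`. -/
def LBW_lab (a b : V → ℕ) (h : ℕ → ZMod 2) (d : V × Fin 4) : ZMod 2 :=
  ![h (a d.1), h (a d.1 + 1), h (b d.1 + 1), h (b d.1)] d.2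

theorem LBW_labin {m : ℕ} {q : ℕ → V} {a b : V → ℕ} (hP : Pos m q a b) (h : ℕ → ZMod 2)
    (i : ℕ) (hi : i < m) : LBW_lab a b h (inD m q a i) = h i := by
  rcases hP.uni i hi with h1 | h1
  · have h2 := LBW_ina hP (q i)
    rw [← h1] at h2
    rw [h2]
    show h (a (q i)) = h i
    rw [← h1]
  · have h2 := LBW_inb hP (q i)
    rw [← h1] at h2
    rw [h2]
    show h (b (q i)) = h i
    rw [← h1]

theorem LBW_labout {m : ℕ} {q : ℕ → V} {a b : V → ℕ} (hP : Pos m q a b) (h : ℕ → ZMod 2)
    (i : ℕ) (hi : i < m) : LBW_lab a b h (outD m q a i) = h (i + 1) := by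
  rcases hP.uni i hi with h1 | h1
  · have h2 := LBW_outa hP (q i)
    rw [← h1] at h2
    rw [h2]
    show h (a (q i) + 1) = h (i + 1)
    rw [← h1]
  · have h2 := LBW_outb hP (q i)
    rw [← h1] at h2
    rw [h2]
    show h (b (q i) + 1) = h (i + 1)
    rw [← h1]

theorem LBW_inper {G : SimpleGraph V} {m : ℕ} {q : ℕ → V} (hE : EW G m q) (a : V → ℕ) (i : ℕ) :
    inD m q a (i + m) = inD m q a i := by
  unfold inD
  rw [hE.per, Nat.add_mod_right]

/-- Every dart arrives or leaves. -/
theorem LBW_dart {m : ℕ} {q : ℕ → V} {a b : V → ℕ} (hP : Pos m q a b) (d : V × Fin 4) :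
    (∃ i < m, d = inD m q a i) ∨ ∃ i < m, d = outD m q a i := by
  obtain ⟨v, k⟩ := d
  have h1 := hP.lt v
  fin_cases k
  · exact Or.inl ⟨a v, h1.1.trans h1.2, (LBW_ina hP v).symm⟩
  · exact Or.inr ⟨a v, h1.1.trans h1.2, (LBW_outa hP v).symm⟩
  · exact Or.inr ⟨b v, h1.2, (LBW_outb hP v).symm⟩
  · exact Or.inl ⟨b v, h1.2, (LBW_inb hP v).symm⟩

/-- Invariance under the transition system at one vertex. -/
theorem LBW_tr (t : V → Fin 3) (φ : V × Fin 4 → ZMod 2) :
    (∀ d, φ (tr t d) = φ d) ↔ ∀ v, (t v = 0 → φ (v, 0) = φ (v, 1) ∧ φ (v, 2) = φ (v, 3)) ∧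
      (t v = 1 → φ (v, 0) = φ (v, 2) ∧ φ (v, 1) = φ (v, 3)) ∧
      (t v = 2 → φ (v, 0) = φ (v, 3) ∧ φ (v, 1) = φ (v, 2)) := by
  constructor
  · intro h v
    have h0 := h (v, 0)
    have h1 := h (v, 1)
    have h2 := h (v, 2)
    have h3 := h (v, 3)
    refine ⟨fun ht => ?_, fun ht => ?_, fun ht => ?_⟩
    · simp only [tr, ht] at h0 h1 h2 h3
      exact ⟨h1, h3⟩
    · simp only [tr, ht] at h0 h1 h2 h3
      exact ⟨h2, h3⟩
    · simp only [tr, ht] at h0 h1 h2 h3
      exact ⟨h3, h2⟩
  · rintro h ⟨v, k⟩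
    obtain ⟨h0, h1, h2⟩ := h v
    have ht : t v = 0 ∨ t v = 1 ∨ t v = 2 := by
      generalize t v = s
      revert s
      decide
    rcases ht with ht | ht | ht
    · obtain ⟨e1, e2⟩ := h0 ht
      simp only [tr, ht]
      fin_cases k
      · exact e1.symm
      · exact e1
      · exact e2.symm
      · exact e2
    · obtain ⟨e1, e2⟩ := h1 ht
      simp only [tr, ht]
      fin_cases k
      · exact e1.symm
      · exact e2.symm
      · exact e1
      · exact e2
    · obtain ⟨e1, e2⟩ := h2 ht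
      simp only [tr, ht]
      fin_cases k
      · exact e1.symm
      · exact e2.symm
      · exact e2
      · exact e1

/-- The position labels. -/
def LBW_h (q : ℕ → V) (c : ZMod 2) (z : V → ZMod 2) (i : ℕ) : ZMod 2 :=
  c + ∑ j ∈ range i, z (q j)

theorem LBW_hs (q : ℕ → V) (c : ZMod 2) (z : V → ZMod 2) (i : ℕ) :
    LBW_h q c z (i + 1) = LBW_h q c z i + z (q i) := by
  unfold LBW_h
  rw [Finset.sum_range_succ, add_assoc]

theorem LBW_h0 (q : ℕ → V) (c : ZMod 2) (z : V → ZMod 2) : LBW_h q c z 0 = c := by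
  unfold LBW_h
  rw [Finset.sum_range_zero, add_zero]

theorem LBW_hm [Fintype V] [DecidableEq V] {m : ℕ} {q : ℕ → V} {a b : V → ℕ}
    (hP : Pos m q a b) (c : ZMod 2) (z : V → ZMod 2) : LBW_h q c z m = c := by
  have h2 : ∀ x : ZMod 2, x + x = 0 := by decide
  unfold LBW_h
  rw [LBW_sum hP]
  have : ∑ w, (z (q (a w)) + z (q (b w))) = 0 := by
    apply Finset.sum_eq_zero
    intro w _
    rw [(hP.val w).1, (hP.val w).2, h2]
  rw [this, add_zero]

theorem LBW_K [Fintype V] [DecidableEq V] {m : ℕ} {q : ℕ → V} {a b : V → ℕ}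
    (hP : Pos m q a b) (t : V → Fin 3) (c : ZMod 2) (z : V → ZMod 2) :
    (∀ d, LBW_lab a b (LBW_h q c z) (tr t d) = LBW_lab a b (LBW_h q c z) d) ↔
      Kz (IG m q) t z := by
  rw [LBW_tr]
  unfold Kz
  apply forall_congr'
  intro v
  have hk := LBW_key hP z v
  have f0 : LBW_lab a b (LBW_h q c z) (v, 0) = LBW_h q c z (a v) := rfl
  have f1 : LBW_lab a b (LBW_h q c z) (v, 1) = LBW_h q c z (a v) + z v := by
    have h1 : LBW_lab a b (LBW_h q c z) (v, 1) = LBW_h q c z (a v + 1) := rfl
    rw [h1, LBW_hs, (hP.val v).1]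
  have f2 : LBW_lab a b (LBW_h q c z) (v, 2) = LBW_h q c z (b v) + z v := by
    have h1 : LBW_lab a b (LBW_h q c z) (v, 2) = LBW_h q c z (b v + 1) := rfl
    rw [h1, LBW_hs, (hP.val v).2]
  have f3 : LBW_lab a b (LBW_h q c z) (v, 3) = LBW_h q c z (b v) := rfl
  rw [f0, f1, f2, f3]
  have f4 : LBW_h q c z (b v) + LBW_h q c z (a v) =
      z v + ∑ w, (@ite (ZMod 2) ((IG m q).Adj v w) (Classical.propDecidable _) (z w) 0) := by
    rw [← hk]
    have h2 : ∀ x y w : ZMod 2, (x + y) + (x + w) = y + w := by decide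
    exact h2 _ _ _
  revert f4
  generalize LBW_h q c z (b v) = B
  generalize LBW_h q c z (a v) = A
  generalize (∑ w, (@ite (ZMod 2) ((IG m q).Adj v w) (Classical.propDecidable _) (z w) 0)) = N
  generalize z v = Z
  generalize t v = T
  intro f4
  clear f0 f1 f2 f3 hk
  revert T A B N Z
  decide

end LBWsec

/-- LBW: circuits and the kernel. -/
theorem LBW : LBW_stmt := by
  intro V _ _ G m q a b e t hE hP he1 he2
  have h1 : Nat.card {φ : V × Fin 4 → Bool // (∀ d, φ (e d) = φ d) ∧ ∀ d, φ (tr t d) = φ d} =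
      Nat.card {φ : V × Fin 4 → ZMod 2 // (∀ d, φ (e d) = φ d) ∧ ∀ d, φ (tr t d) = φ d} := by
    apply Nat.card_congr
    refine Equiv.subtypeEquiv (Equiv.arrowCongr (Equiv.refl _) finTwoEquiv.symm) ?_
    intro φ
    have hi : Function.Injective (finTwoEquiv.symm : Bool → Fin 2) := finTwoEquiv.symm.injective
    constructor
    · rintro ⟨h1, h2⟩
      exact ⟨fun d => congrArg finTwoEquiv.symm (h1 d), fun d => congrArg finTwoEquiv.symm (h2 d)⟩
    · rintro ⟨h1, h2⟩
      exact ⟨fun d => hi (h1 d), fun d => hi (h2 d)⟩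
  rw [h1]
  have key : ∀ (c : ZMod 2) (z : V → ZMod 2), ∀ i < m,
      LBW_lab a b (LBW_h q c z) (inD m q a (i + 1)) = LBW_h q c z (i + 1) := by
    intro c z i hi
    rcases Nat.lt_or_ge (i + 1) m with h | h
    · exact LBW_labin hP _ _ h
    · have hm : i + 1 = m := by omega
      rw [hm]
      have h3 : inD m q a m = inD m q a 0 := by
        have := LBW_inper hE a 0
        rwa [zero_add] at this
      rw [h3, LBW_labin hP _ 0 hE.pos, LBW_hm hP, LBW_h0]
  have inve : ∀ (c : ZMod 2) (z : V → ZMod 2) (d : V × Fin 4),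
      LBW_lab a b (LBW_h q c z) (e d) = LBW_lab a b (LBW_h q c z) d := by
    intro c z d
    rcases LBW_dart hP d with ⟨i, hi, rfl⟩ | ⟨i, hi, rfl⟩
    · rcases Nat.eq_zero_or_pos i with h0 | h0
      · subst h0
        have h3 : inD m q a ((m - 1) + 1) = inD m q a 0 := by
          have := LBW_inper hE a 0
          rw [zero_add] at this
          rw [← this]
          congr 1
          have := hE.pos
          omega
        have hm : m - 1 < m := by
          have := hE.pos
          omega
        rw [← h3, he2, key c z _ hm, LBW_labout hP _ _ hm]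
      · have h4 : i = (i - 1) + 1 := by omega
        rw [h4, he2, key c z _ (by omega), LBW_labout hP _ _ (by omega)]
    · rw [he1, key c z i hi, LBW_labout hP _ i hi]
  let F : ZMod 2 × {z : V → ZMod 2 // Kz (IG m q) t z} →
      {φ : V × Fin 4 → ZMod 2 // (∀ d, φ (e d) = φ d) ∧ ∀ d, φ (tr t d) = φ d} :=
    fun p => ⟨LBW_lab a b (LBW_h q p.1 p.2.1), inve p.1 p.2.1, (LBW_K hP t p.1 p.2.1).2 p.2.2⟩
  have hF : Function.Bijective F := by
    constructor
    · rintro ⟨c, z, hz⟩ ⟨c', z', hz'⟩ h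
      have h5 : LBW_lab a b (LBW_h q c z) = LBW_lab a b (LBW_h q c' z') := congrArg Subtype.val h
      have hc : c = c' := by
        have h6 := congrFun h5 (inD m q a 0)
        rwa [LBW_labin hP _ 0 hE.pos, LBW_labin hP _ 0 hE.pos, LBW_h0, LBW_h0] at h6
      have hz : z = z' := by
        funext v
        have g0 := congrFun h5 (v, 0)
        have g1 := congrFun h5 (v, 1)
        have e0 : LBW_h q c z (a v) = LBW_h q c' z' (a v) := g0
        have e1 : LBW_h q c z (a v + 1) = LBW_h q c' z' (a v + 1) := g1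
        rw [LBW_hs, LBW_hs, (hP.val v).1, e0] at e1
        exact add_left_cancel e1
      subst hc
      subst hz
      rfl
    · rintro ⟨φ, hφe, hφt⟩
      have hv := (LBW_tr t φ).1 hφt
      have step : ∀ i < m, φ (outD m q a i) =
          φ (inD m q a i) + (φ (q i, 0) + φ (q i, 1)) := by
        intro i hi
        obtain ⟨t0, t1, t2⟩ := hv (q i)
        rcases hP.uni i hi with h6 | h6
        · have g1 := LBW_ina hP (q i)
          have g2 := LBW_outa hP (q i)
          rw [← h6] at g1 g2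
          rw [g1, g2]
          have : ∀ x y : ZMod 2, y = x + (x + y) := by decide
          exact this _ _
        · have g1 := LBW_inb hP (q i)
          have g2 := LBW_outb hP (q i)
          rw [← h6] at g1 g2
          rw [g1, g2]
          revert t0 t1 t2
          generalize φ (q i, 0) = x0
          generalize φ (q i, 1) = x1
          generalize φ (q i, 2) = x2
          generalize φ (q i, 3) = x3
          generalize t (q i) = T
          revert x0 x1 x2 x3 T
          decide
      have hh : ∀ i ≤ m, LBW_h q (φ (inD m q a 0)) (fun v => φ (v, 0) + φ (v, 1)) i =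
          φ (inD m q a i) := by
        intro i
        induction i with
        | zero => intro _; exact LBW_h0 _ _ _
        | succ i ih =>
          intro hi
          rw [LBW_hs, ih (by omega), ← step i (by omega), ← hφe (outD m q a i), he1]
      have hlab : LBW_lab a b (LBW_h q (φ (inD m q a 0)) (fun v => φ (v, 0) + φ (v, 1))) = φ := by
        funext d
        rcases LBW_dart hP d with ⟨i, hi, rfl⟩ | ⟨i, hi, rfl⟩
        · rw [LBW_labin hP _ i hi, hh i hi.le]
        · rw [LBW_labout hP _ i hi, hh (i + 1) hi, ← he1, hφe]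
      refine ⟨(φ (inD m q a 0), ⟨fun v => φ (v, 0) + φ (v, 1), ?_⟩), ?_⟩
      · rw [← LBW_K hP t (φ (inD m q a 0)), hlab]
        exact hφt
      · exact Subtype.ext hlab
  rw [← Nat.card_eq_of_bijective F hF, Nat.card_prod, Nat.card_zmod]

end Pool.Agent.IH
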